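import Pool.Agent.H567.PP.Stm4
import Pool.Agent.H567.HW.Pr6

/-!
# The mean square in a residue class under a dichotomy, second engine
-/

set_option autoImplicit false

namespace Pool.Agent.H376.PP

open Finset
open Pool.Agent.H567.HW
open Pool.Agent.H567.PP
open Pool.Agent.Y883.GJ
open Pool.Agent.R460.GS (tr cl_tr cs_tr norm_tr_le sum_norm_le)
open Pool.Agent.H807R2.Dav (ee)
open Pool.Agent.Y614.GJ.Core (P P_nonneg S_le P_le q_le_phi card_above gcd_above dirich ev_log)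

open Classical in
/-- the pointwise estimate on the major arcs -/
lemma pwU (h3 : OrthStm) {q N Q : ℕ} [NeZero q] (U : Finset ℕ) (F : ℕ → ℂ) (G : ℕ → ℕ → ℂ) {A C₃ B₂ U₁ : ℕ}
    {L η Yr : ℝ} {a : ZMod q} (hYr : 0 ≤ Yr)
    (hL : L = Real.log Q) (hL200 : 200 ≤ L) (hQ : 1 ≤ Q) (hqQ : (q : ℝ) ≤ Q)
    (B : Finset (DirichletCharacter ℂ q)) (hBc : (B.card : ℝ) ≤ L ^ C₃)
    (hgood : ∀ S : Finset (DirichletCharacter ℂ q), Disjoint S B →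
      ∑ u ∈ U, ∑ χ ∈ S, ‖cs q N (G u) η χ‖ ^ 2 ≤ Yr * ((Q : ℝ) ^ 2 / L ^ (A + 4)))
    (hnon : ∑ u ∈ U, ∑ l ∈ univ.filter (fun l : ZMod q => ¬ IsUnit l), ‖cl q N (G u) η l‖ ^ 2 ≤
      Yr * ((Q : ℝ) ^ 2 / (q * L ^ (A + 2))))
    (hdich : ∀ χ : DirichletCharacter ℂ q,
      (∑ u ∈ U, ‖cs q N (G u) η χ‖ ^ 2 ≤ Yr * ((Q : ℝ) / L ^ U₁) ^ 2) ∨
        (‖∑ l : ZMod q, cl q N F η l * χ⁻¹ (a - l)‖ ≤ Q / L ^ B₂))
    (hU : C₃ + A + 4 ≤ 2 * U₁)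
    (hB₂ : 2 * C₃ + A + 3 ≤ 2 * B₂) :
    ∑ u ∈ U, ‖∑ l : ZMod q, cl q N F η l * cl q N (G u) η (a - l)‖ ^ 2 ≤ (Q : ℝ) ^ 2 / (q * L ^ A) *
      (Yr * ∑ l : ZMod q, ‖cl q N F η l‖ ^ 2 + ∑ u ∈ U, ∑ l : ZMod q, ‖cl q N (G u) η l‖ ^ 2) := by
  have hL0 : 0 < L := by linarith
  have hL1 : 1 ≤ L := by linarith
  have hNp : (0 : ℝ) < Q := by exact_mod_cast hQ
  have hq0 : 0 < q := Nat.pos_of_ne_zero (NeZero.ne q)
  have hqr : (0 : ℝ) < q := by exact_mod_cast hq0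
  have hφ0 : (0 : ℝ) < q.totient := by exact_mod_cast Nat.totient_pos.2 hq0
  have hφ : ((q.totient : ℝ))⁻¹ ≤ 3 * L / q := by
    have h1 := q_le_phi hq0
    have h2 : Real.log q ≤ L := by
      rw [hL]
      exact Real.log_le_log hqr hqQ
    rw [inv_eq_one_div, div_le_div_iff₀ hφ0 hqr, one_mul]
    refine h1.trans ?_
    rw [mul_comm (3 * L)]
    apply mul_le_mul_of_nonneg_left _ hφ0.le
    linarith
  obtain ⟨BF, hBF⟩ : ∃ BF : Finset (DirichletCharacter ℂ q),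
      BF = B.filter (fun χ => ¬ (∑ u ∈ U, ‖cs q N (G u) η χ‖ ^ 2 ≤ Yr * ((Q : ℝ) / L ^ U₁) ^ 2)) := ⟨_, rfl⟩
  have hBFc : (BF.card : ℝ) ≤ L ^ C₃ := by
    refine le_trans ?_ hBc
    rw [hBF]
    exact_mod_cast card_filter_le _ _
  have hFB : ∑ u ∈ U, ∑ χ ∈ univ.filter (fun χ => χ ∉ BF), ‖cs q N (G u) η χ‖ ^ 2 ≤
      2 * (Yr * ((Q : ℝ) ^ 2 / L ^ (A + 4))) := by
    have hsub : univ.filter (fun χ => χ ∉ BF) ⊆
        (univ.filter (fun χ => χ ∉ B)) ∪ (B.filter (fun χ => ∑ u ∈ U, ‖cs q N (G u) η χ‖ ^ 2 ≤ Yr * ((Q : ℝ) / L ^ U₁) ^ 2)) := by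
      intro χ hχ
      rw [mem_filter] at hχ
      rw [mem_union, mem_filter, mem_filter]
      by_cases hb : χ ∈ B
      · right
        refine ⟨hb, ?_⟩
        by_contra h
        refine hχ.2 ?_
        rw [hBF, mem_filter]
        exact ⟨hb, h⟩
      · left
        exact ⟨mem_univ _, hb⟩
    have hdis : Disjoint (univ.filter (fun χ => χ ∉ B))
        (B.filter (fun χ => ∑ u ∈ U, ‖cs q N (G u) η χ‖ ^ 2 ≤ Yr * ((Q : ℝ) / L ^ U₁) ^ 2)) := by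
      rw [disjoint_left]
      intro χ k1 k2
      exact (mem_filter.1 k1).2 (mem_filter.1 k2).1
    refine (sum_le_sum fun u _ => sum_le_sum_of_subset_of_nonneg hsub fun _ _ _ => sq_nonneg _).trans ?_
    have e0 : ∀ u ∈ U, ∑ χ ∈ (univ.filter (fun χ => χ ∉ B)) ∪ (B.filter (fun χ => ∑ u ∈ U, ‖cs q N (G u) η χ‖ ^ 2 ≤ Yr * ((Q : ℝ) / L ^ U₁) ^ 2)),
        ‖cs q N (G u) η χ‖ ^ 2 = ∑ χ ∈ univ.filter (fun χ => χ ∉ B), ‖cs q N (G u) η χ‖ ^ 2 +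
        ∑ χ ∈ B.filter (fun χ => ∑ u ∈ U, ‖cs q N (G u) η χ‖ ^ 2 ≤ Yr * ((Q : ℝ) / L ^ U₁) ^ 2), ‖cs q N (G u) η χ‖ ^ 2 :=
      fun u _ => sum_union hdis
    rw [sum_congr rfl e0, sum_add_distrib]
    have k1 : ∑ u ∈ U, ∑ χ ∈ univ.filter (fun χ => χ ∉ B), ‖cs q N (G u) η χ‖ ^ 2 ≤
        Yr * ((Q : ℝ) ^ 2 / L ^ (A + 4)) := by
      apply hgood
      rw [disjoint_left]
      intro χ k1 k2
      exact (mem_filter.1 k1).2 k2
    have k2 : ∑ u ∈ U, ∑ χ ∈ B.filter (fun χ => ∑ u ∈ U, ‖cs q N (G u) η χ‖ ^ 2 ≤ Yr * ((Q : ℝ) / L ^ U₁) ^ 2),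
        ‖cs q N (G u) η χ‖ ^ 2 ≤ Yr * ((Q : ℝ) ^ 2 / L ^ (A + 4)) := by
      rw [sum_comm]
      calc ∑ χ ∈ B.filter (fun χ => ∑ u ∈ U, ‖cs q N (G u) η χ‖ ^ 2 ≤ Yr * ((Q : ℝ) / L ^ U₁) ^ 2), ∑ u ∈ U, ‖cs q N (G u) η χ‖ ^ 2
          ≤ ∑ χ ∈ B.filter (fun χ => ∑ u ∈ U, ‖cs q N (G u) η χ‖ ^ 2 ≤ Yr * ((Q : ℝ) / L ^ U₁) ^ 2), Yr * ((Q : ℝ) / L ^ U₁) ^ 2 := by
            refine sum_le_sum fun χ hχ => ?_
            exact (mem_filter.1 hχ).2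
        _ = ((B.filter (fun χ => ∑ u ∈ U, ‖cs q N (G u) η χ‖ ^ 2 ≤ Yr * ((Q : ℝ) / L ^ U₁) ^ 2)).card : ℝ) * (Yr * ((Q : ℝ) / L ^ U₁) ^ 2) := by
            rw [sum_const, nsmul_eq_mul]
        _ ≤ L ^ C₃ * (Yr * ((Q : ℝ) / L ^ U₁) ^ 2) := by
            apply mul_le_mul_of_nonneg_right _ (by positivity)
            refine le_trans ?_ hBc
            exact_mod_cast card_filter_le _ _
        _ = Yr * ((Q : ℝ) ^ 2 * (L ^ C₃ / L ^ (2 * U₁))) := by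
            rw [div_pow, ← pow_mul, mul_comm U₁ 2]
            ring
        _ ≤ Yr * ((Q : ℝ) ^ 2 * (1 / L ^ (A + 4))) := by
            have e1 : L ^ C₃ / L ^ (2 * U₁) ≤ 1 / L ^ (A + 4) := by
              rw [div_le_div_iff₀ (by positivity) (by positivity), one_mul, ← pow_add]
              exact pow_le_pow_right₀ hL1 (by omega)
            gcongr
        _ = _ := by ring
    linarith
  obtain ⟨Fc, hFc⟩ : ∃ Fc : ZMod q → ℂ, Fc = cl q N F η := ⟨_, rfl⟩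
  obtain ⟨Gc, hGc⟩ : ∃ Gc : ℕ → ZMod q → ℂ, Gc = fun u => cl q N (G u) η := ⟨_, rfl⟩
  obtain ⟨Gb, hGb⟩ : ∃ Gb : ℕ → ZMod q → ℂ, Gb = fun u => clB q N (G u) η BF := ⟨_, rfl⟩
  obtain ⟨SF, hSF⟩ : ∃ SF : ℝ, SF = ∑ l, ‖Fc l‖ ^ 2 := ⟨_, rfl⟩
  obtain ⟨SG, hSG⟩ : ∃ SG : ℕ → ℝ, SG = fun u => ∑ l, ‖Gc u l‖ ^ 2 := ⟨_, rfl⟩
  have hSF0 : 0 ≤ SF := by rw [hSF]; exact sum_nonneg fun _ _ => sq_nonneg _
  have hSG0 : ∀ u, 0 ≤ SG u := fun u => by rw [hSG]; exact sum_nonneg fun _ _ => sq_nonneg _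
  obtain ⟨E, hE⟩ : ∃ E : ℝ, E = (Q : ℝ) ^ 2 / (q * L ^ (A + 1)) := ⟨_, rfl⟩
  have hE0 : 0 ≤ E := by rw [hE]; positivity
  have hGg : ∑ u ∈ U, ∑ l, ‖Gc u l - Gb u l‖ ^ 2 ≤ Yr * E := by
    rw [hE, hGc, hGb]
    simp only
    have e0 : ∀ u ∈ U, ∑ l : ZMod q, ‖cl q N (G u) η l - clB q N (G u) η BF l‖ ^ 2 =
        (q.totient : ℝ)⁻¹ * ∑ χ ∈ univ.filter (fun χ => χ ∉ BF), ‖cs q N (G u) η χ‖ ^ 2 +
      ∑ l ∈ univ.filter (fun l : ZMod q => ¬ IsUnit l), ‖cl q N (G u) η l‖ ^ 2 := by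
      intro u _
      refine ((h3 q N (G u) η BF).1).trans ?_
      refine congrArg₂ (fun x y : ℝ => x + y) (congrArg (fun x : ℝ => (q.totient : ℝ)⁻¹ * x) ?_) ?_
      · refine sum_congr (Finset.ext fun χ => ?_) fun _ _ => rfl
        simp only [mem_filter]
      · refine sum_congr (Finset.ext fun l => ?_) fun _ _ => rfl
        simp only [mem_filter]
    rw [sum_congr rfl e0, sum_add_distrib, ← mul_sum]
    have k1 : (q.totient : ℝ)⁻¹ * ∑ u ∈ U, ∑ χ ∈ univ.filter (fun χ => χ ∉ BF), ‖cs q N (G u) η χ‖ ^ 2 ≤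
        3 * L / q * (2 * (Yr * ((Q : ℝ) ^ 2 / L ^ (A + 4)))) := by
      refine mul_le_mul hφ ?_ (sum_nonneg fun _ _ => sum_nonneg fun _ _ => sq_nonneg _) (by positivity)
      exact hFB
    have k2 : 3 * L / q * (2 * (Yr * ((Q : ℝ) ^ 2 / L ^ (A + 4)))) =
        6 / L ^ 2 * (Yr * ((Q : ℝ) ^ 2 / (q * L ^ (A + 1)))) := by
      have e : L ^ (A + 4) = L ^ (A + 1) * L * L ^ 2 := by ring
      rw [e]
      field_simp
      try ring
    have k3 : Yr * ((Q : ℝ) ^ 2 / (q * L ^ (A + 2))) = 1 / L * (Yr * ((Q : ℝ) ^ 2 / (q * L ^ (A + 1)))) := by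
      have e : L ^ (A + 2) = L ^ (A + 1) * L := by ring
      rw [e]
      field_simp
    have k4 : 6 / L ^ 2 ≤ 1 / 2 := by
      rw [div_le_div_iff₀ (by positivity) two_pos]
      nlinarith
    have k5 : 1 / L ≤ 1 / 2 := by
      rw [div_le_div_iff₀ hL0 two_pos]
      linarith
    have k6 : 0 ≤ Yr * ((Q : ℝ) ^ 2 / (q * L ^ (A + 1))) := by positivity
    rw [k2] at k1
    rw [k3] at hnon
    have k7 := mul_le_mul_of_nonneg_right k4 k6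
    have k8 := mul_le_mul_of_nonneg_right k5 k6
    linarith
  have hcs : ∀ (u : ℕ) (χ : DirichletCharacter ℂ q), ‖cs q N (G u) η χ‖ ^ 2 ≤ q.totient * SG u := by
    intro u χ
    have k1 : ‖cs q N (G u) η χ‖ ^ 2 ≤ ∑ χ : DirichletCharacter ℂ q, ‖cs q N (G u) η χ‖ ^ 2 :=
      single_le_sum (f := fun χ : DirichletCharacter ℂ q => ‖cs q N (G u) η χ‖ ^ 2)
        (fun _ _ => sq_nonneg _) (mem_univ χ)
    refine k1.trans ?_
    rw [(h3 q N (G u) η B).2.2, hSG, hGc]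
    apply mul_le_mul_of_nonneg_left _ hφ0.le
    exact sum_le_sum_of_subset_of_nonneg (filter_subset _ _) fun _ _ _ => sq_nonneg _
  have t1 : ∑ u ∈ U, ‖∑ l, Fc l * (Gc u (a - l) - Gb u (a - l))‖ ^ 2 ≤ SF * (Yr * E) := by
    have e1 : ∀ u ∈ U, ‖∑ l, Fc l * (Gc u (a - l) - Gb u (a - l))‖ ^ 2 ≤ SF * ∑ l, ‖Gc u l - Gb u l‖ ^ 2 := by
      intro u _
      have := Pool.Agent.Y378.GJ.cauchy Fc (fun l => Gc u l - Gb u l) a
      rw [← hSF] at this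
      exact this
    refine (sum_le_sum e1).trans ?_
    rw [← mul_sum]
    exact mul_le_mul_of_nonneg_left hGg hSF0
  have t2 : ∀ u, ‖∑ l, Fc l * Gb u (a - l)‖ ^ 2 ≤ SG u * E := by
    intro u
    have e1 : ∑ l, Fc l * Gb u (a - l) = (q.totient : ℂ)⁻¹ * ∑ χ ∈ BF, cs q N (G u) η χ *
        ∑ l, Fc l * χ⁻¹ (a - l) := by
      rw [hGb]
      unfold clB
      have e2 : ∀ l : ZMod q, Fc l * ((q.totient : ℂ)⁻¹ * ∑ χ ∈ BF, χ⁻¹ (a - l) * cs q N (G u) η χ) =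
          ∑ χ ∈ BF, (q.totient : ℂ)⁻¹ * (cs q N (G u) η χ * (Fc l * χ⁻¹ (a - l))) := by
        intro l
        rw [mul_sum, mul_sum]
        refine sum_congr rfl fun χ _ => ?_
        ring
      rw [sum_congr rfl fun l _ => e2 l, sum_comm, mul_sum]
      refine sum_congr rfl fun χ _ => ?_
      rw [← mul_sum, ← mul_sum]
    have e3 : ‖∑ χ ∈ BF, cs q N (G u) η χ * ∑ l, Fc l * χ⁻¹ (a - l)‖ ≤
        (BF.card : ℝ) * (Real.sqrt (q.totient * SG u) * (Q / L ^ B₂)) := by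
      apply sum_norm_le
      intro χ hχ
      rw [norm_mul]
      rw [hBF, mem_filter] at hχ
      refine mul_le_mul (Real.le_sqrt_of_sq_le (hcs u χ)) ?_ (norm_nonneg _) (Real.sqrt_nonneg _)
      rw [hFc]
      exact (hdich χ).resolve_left hχ.2
    have hSGu := hSG0 u
    rw [e1, norm_mul, norm_inv, Complex.norm_natCast]
    calc ((q.totient : ℝ)⁻¹ * ‖∑ χ ∈ BF, cs q N (G u) η χ * ∑ l, Fc l * χ⁻¹ (a - l)‖) ^ 2
        ≤ ((q.totient : ℝ)⁻¹ * (L ^ C₃ * (Real.sqrt (q.totient * SG u) * (Q / L ^ B₂)))) ^ 2 := by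
          have : (BF.card : ℝ) * (Real.sqrt (q.totient * SG u) * (Q / L ^ B₂)) ≤
              L ^ C₃ * (Real.sqrt (q.totient * SG u) * (Q / L ^ B₂)) := by
            apply mul_le_mul_of_nonneg_right hBFc
            positivity
          have h4 := e3.trans this
          gcongr
      _ = (q.totient : ℝ)⁻¹ * (L ^ (2 * C₃) * (SG u * (Q ^ 2 / L ^ (2 * B₂)))) := by
          have h5 : Real.sqrt (q.totient * SG u) ^ 2 = q.totient * SG u := Real.sq_sqrt (by positivity)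
          rw [mul_pow, mul_pow, mul_pow, h5, div_pow, ← pow_mul, ← pow_mul, mul_comm C₃ 2, mul_comm B₂ 2]
          field_simp
      _ ≤ (3 * L / q) * (L ^ (2 * C₃) * (SG u * (Q ^ 2 / L ^ (2 * B₂)))) := by
          apply mul_le_mul_of_nonneg_right hφ
          positivity
      _ = SG u * (Q ^ 2 / q * (3 * L ^ (2 * C₃ + 1) / L ^ (2 * B₂))) := by
          rw [pow_succ]
          field_simp
          try ring
      _ ≤ SG u * (Q ^ 2 / q * (1 / L ^ (A + 1))) := by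
          have e1 : 3 * L ^ (2 * C₃ + 1) / L ^ (2 * B₂) ≤ 1 / L ^ (A + 1) := by
            rw [div_le_div_iff₀ (by positivity) (by positivity), one_mul]
            calc 3 * L ^ (2 * C₃ + 1) * L ^ (A + 1) ≤ L * L ^ (2 * C₃ + 1) * L ^ (A + 1) := by
                  gcongr; linarith
              _ = L ^ (2 * C₃ + A + 3) := by ring
              _ ≤ L ^ (2 * B₂) := pow_le_pow_right₀ hL1 hB₂
          gcongr
      _ = SG u * E := by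
          rw [hE]
          field_simp
  have hsum : ∀ u ∈ U, ‖∑ l : ZMod q, Fc l * Gc u (a - l)‖ ^ 2 ≤
      2 * ‖∑ l, Fc l * (Gc u (a - l) - Gb u (a - l))‖ ^ 2 + 2 * ‖∑ l, Fc l * Gb u (a - l)‖ ^ 2 := by
    intro u _
    have e1 : ∑ l : ZMod q, Fc l * Gc u (a - l) =
        (∑ l, Fc l * (Gc u (a - l) - Gb u (a - l))) + ∑ l, Fc l * Gb u (a - l) := by
      rw [← sum_add_distrib]
      refine sum_congr rfl fun l _ => ?_
      ring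
    rw [e1]
    have k1 := norm_add_le (∑ l, Fc l * (Gc u (a - l) - Gb u (a - l))) (∑ l, Fc l * Gb u (a - l))
    have k2 := pow_le_pow_left₀ (norm_nonneg _) k1 2
    nlinarith [sq_nonneg (‖∑ l, Fc l * (Gc u (a - l) - Gb u (a - l))‖ - ‖∑ l, Fc l * Gb u (a - l)‖)]
  have e5 : ∑ u ∈ U, ‖∑ l : ZMod q, cl q N F η l * cl q N (G u) η (a - l)‖ ^ 2 =
      ∑ u ∈ U, ‖∑ l : ZMod q, Fc l * Gc u (a - l)‖ ^ 2 := by rw [hFc, hGc]
  have e6 : ∑ u ∈ U, ∑ l : ZMod q, ‖cl q N (G u) η l‖ ^ 2 = ∑ u ∈ U, SG u := by rw [hSG, hGc]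
  have e7 : ∑ l : ZMod q, ‖cl q N F η l‖ ^ 2 = SF := by rw [hSF, hFc]
  rw [e5, e6, e7]
  refine (sum_le_sum hsum).trans ?_
  rw [sum_add_distrib, ← mul_sum, ← mul_sum]
  have e4 : (Q : ℝ) ^ 2 / (q * L ^ A) = L * E := by
    rw [hE, pow_succ L A]
    field_simp
  rw [e4]
  have t3 : ∑ u ∈ U, ‖∑ l, Fc l * Gb u (a - l)‖ ^ 2 ≤ (∑ u ∈ U, SG u) * E := by
    rw [sum_mul]
    exact sum_le_sum fun u _ => t2 u
  have hSGs : 0 ≤ ∑ u ∈ U, SG u := sum_nonneg fun u _ => hSG0 u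
  calc 2 * ∑ u ∈ U, ‖∑ l, Fc l * (Gc u (a - l) - Gb u (a - l))‖ ^ 2 + 2 * ∑ u ∈ U, ‖∑ l, Fc l * Gb u (a - l)‖ ^ 2
      ≤ 2 * (SF * (Yr * E)) + 2 * ((∑ u ∈ U, SG u) * E) := by linarith
    _ = 2 * (E * (Yr * SF + ∑ u ∈ U, SG u)) := by ring
    _ ≤ L * (E * (Yr * SF + ∑ u ∈ U, SG u)) := by
        apply mul_le_mul_of_nonneg_right (by linarith)
        positivity
    _ = L * E * (Yr * SF + ∑ u ∈ U, SG u) := by ring

/-- the estimate for one frequency, all classes -/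
lemma pointU (h3 : LiftStm) (F : ℕ → ℂ) (G : ℕ → ℕ → ℂ) (U : Finset ℕ) {A C : ℕ} {L Yr : ℝ}
    {N Q q : ℕ} [NeZero q] {a : ZMod q} (hL8 : 8 ≤ L) (hQ : 1 ≤ Q)
    (hqLC : (q : ℝ) * L ^ C ≤ Q) (hYr : 0 ≤ Yr)
    (hmin : ∀ (k : ℕ) (h : ℤ) (β : ℝ), L ^ C ≤ k → (q : ℝ) * k * L ^ C ≤ Q →
      IsCoprime h (k : ℤ) → |q * β - h / k| ≤ 1 / (k : ℝ) ^ 2 → P q N F β ≤ (Q : ℝ) ^ 2 / (q * L ^ (A + 9)))
    (hpw : ∀ j : ℕ, ((j + 1 : ℕ) : ℝ) ≤ L ^ C → ∀ a' : ZMod ((j + 1) * q), ((a'.val : ℕ) : ZMod q) = a →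
      ∀ η : ℝ, |η| ≤ L ^ C / Q →
      ∑ u ∈ U, ‖∑ l : ZMod ((j + 1) * q), cl ((j + 1) * q) N F η l *
        cl ((j + 1) * q) N (G u) η (a' - l)‖ ^ 2 ≤
      (Q : ℝ) ^ 2 / ((((j + 1) * q : ℕ) : ℝ) * L ^ (A + 2 * C + 9)) *
        (Yr * ∑ l : ZMod ((j + 1) * q), ‖cl ((j + 1) * q) N F η l‖ ^ 2 +
          ∑ u ∈ U, ∑ l : ZMod ((j + 1) * q), ‖cl ((j + 1) * q) N (G u) η l‖ ^ 2))
    (β : ℝ) :
    ∑ u ∈ U, ‖∑ l : ZMod q, cl q N F β l * cl q N (G u) β (a - l)‖ ^ 2 ≤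
      (Q : ℝ) ^ 2 / (q * L ^ (A + 9)) * ∑ u ∈ U, P q N (G u) β +
      L ^ C * ((Q : ℝ) ^ 2 / (q * L ^ (A + 2 * C + 9))) *
        ∑ j ∈ range ⌊L ^ C⌋₊, (Yr * P ((j + 1) * q) N F β + ∑ u ∈ U, P ((j + 1) * q) N (G u) β) := by
  have hL0 : 0 < L := by linarith
  have hq0 : (0 : ℝ) < q := by exact_mod_cast NeZero.pos q
  have hN0 : (0 : ℝ) < Q := by exact_mod_cast hQ
  have hLC : 0 < L ^ C := by positivity
  have hPu : ∀ (q' : ℕ) [NeZero q'], 0 ≤ ∑ u ∈ U, P q' N (G u) β := fun q' _ =>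
    sum_nonneg fun _ _ => P_nonneg _ _ _ _
  have hterm : ∀ (q' : ℕ) [NeZero q'], 0 ≤ Yr * P q' N F β + ∑ u ∈ U, P q' N (G u) β := fun q' _ =>
    add_nonneg (mul_nonneg hYr (P_nonneg _ _ _ _)) (hPu q')
  have hsum0 : 0 ≤ ∑ j ∈ range ⌊L ^ C⌋₊,
      (Yr * P ((j + 1) * q) N F β + ∑ u ∈ U, P ((j + 1) * q) N (G u) β) :=
    sum_nonneg fun j _ => hterm _
  set n := ⌊(Q : ℝ) / (q * L ^ C)⌋₊ with hn
  have hn0 : 0 < n := by
    rw [hn, Nat.floor_pos, le_div_iff₀ (by positivity), one_mul]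
    exact hqLC
  have hn1 : (n : ℝ) ≤ (Q : ℝ) / (q * L ^ C) := Nat.floor_le (by positivity)
  have hn2 : (Q : ℝ) / (q * L ^ C) < n + 1 := Nat.lt_floor_add_one _
  obtain ⟨j, h, hj, hcop, hx⟩ := dirich ((q : ℝ) * β) hn0
  have hjn : ((j + 1 : ℕ) : ℝ) ≤ n := by exact_mod_cast hj
  have hk0 : (0 : ℝ) < ((j + 1 : ℕ) : ℝ) := by positivity
  have hk1 : (1 : ℝ) ≤ ((j + 1 : ℕ) : ℝ) := by exact_mod_cast Nat.succ_pos j
  have hP0 : 0 ≤ P q N F β := P_nonneg _ _ _ _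
  by_cases hkC : L ^ C ≤ ((j + 1 : ℕ) : ℝ)
  · -- minor arcs
    have e1 : (q : ℝ) * ((j + 1 : ℕ) : ℝ) * L ^ C ≤ Q := by
      have := (le_div_iff₀ (by positivity)).1 (hjn.trans hn1)
      linarith
    have e2 : |(q : ℝ) * β - h / ((j + 1 : ℕ) : ℝ)| ≤ 1 / ((j + 1 : ℕ) : ℝ) ^ 2 := by
      refine hx.trans ?_
      rw [sq]
      apply one_div_le_one_div_of_le (by positivity)
      apply mul_le_mul_of_nonneg_right _ hk0.le
      linarith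
    have e7 := hmin (j + 1) h β hkC e1 hcop e2
    calc ∑ u ∈ U, ‖∑ l : ZMod q, cl q N F β l * cl q N (G u) β (a - l)‖ ^ 2
        ≤ ∑ u ∈ U, P q N F β * P q N (G u) β := sum_le_sum fun u _ => S_le q N F (G u) β a
      _ = P q N F β * ∑ u ∈ U, P q N (G u) β := by rw [mul_sum]
      _ ≤ ((Q : ℝ) ^ 2 / (q * L ^ (A + 9))) * ∑ u ∈ U, P q N (G u) β :=
          mul_le_mul_of_nonneg_right e7 (hPu q)
      _ ≤ _ := le_add_of_nonneg_right (mul_nonneg (by positivity) hsum0)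
  · -- major arcs
    rw [not_le] at hkC
    set k : ℕ := j + 1 with hk
    have hηle : |β - h / ((k * q : ℕ) : ℝ)| ≤ L ^ C / Q := by
      have e1 : β - h / ((k * q : ℕ) : ℝ) = ((q : ℝ) * β - h / (k : ℝ)) / q := by
        push_cast
        field_simp
      rw [e1, abs_div, abs_of_pos hq0, div_le_div_iff₀ hq0 hN0]
      have e2 : (Q : ℝ) ≤ (n + 1) * (q * L ^ C) := by
        have := (div_lt_iff₀ (by positivity)).1 hn2
        linarith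
      have hn3 : (0 : ℝ) < n + 1 := by positivity
      calc |(q : ℝ) * β - h / (k : ℝ)| * Q ≤ 1 / (((n : ℝ) + 1) * (k : ℝ)) * Q := by gcongr
        _ ≤ 1 / ((n : ℝ) + 1) * Q := by
            apply mul_le_mul_of_nonneg_right _ hN0.le
            apply one_div_le_one_div_of_le hn3
            nlinarith
        _ ≤ 1 / ((n : ℝ) + 1) * ((n + 1) * (q * L ^ C)) := by gcongr
        _ = L ^ C * q := by field_simp
    have e3 := majW h3 F G U (a := a) (Yr := Yr)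
      (X := (Q : ℝ) ^ 2 / (((k * q : ℕ) : ℝ) * L ^ (A + 2 * C + 9)))
      (h := h) (β := β) (η := β - h / ((k * q : ℕ) : ℝ)) (by ring)
      (fun a' ha' => hpw j hkC.le a' ha' _ hηle)
    have hPk : 0 ≤ Yr * P (k * q) N F β + ∑ u ∈ U, P (k * q) N (G u) β := hterm _
    have e4 : Yr * P (k * q) N F β + ∑ u ∈ U, P (k * q) N (G u) β ≤ ∑ j ∈ range ⌊L ^ C⌋₊,
        (Yr * P ((j + 1) * q) N F β + ∑ u ∈ U, P ((j + 1) * q) N (G u) β) := by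
      refine single_le_sum (f := fun j => Yr * P ((j + 1) * q) N F β + ∑ u ∈ U, P ((j + 1) * q) N (G u) β)
        (fun j _ => hterm _) (mem_range.2 ?_)
      have : k ≤ ⌊L ^ C⌋₊ := Nat.le_floor hkC.le
      omega
    have hX0 : 0 ≤ (Q : ℝ) ^ 2 / (q * L ^ (A + 2 * C + 9)) := by positivity
    have hfst : 0 ≤ (Q : ℝ) ^ 2 / (q * L ^ (A + 9)) * ∑ u ∈ U, P q N (G u) β :=
      mul_nonneg (by positivity) (hPu q)
    refine le_trans e3 (le_trans ?_ (le_add_of_nonneg_left hfst))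
    clear hfst e3
    generalize (Yr * P (k * q) N F β + ∑ u ∈ U, P (k * q) N (G u) β) = Z1 at hPk e4 ⊢
    generalize (∑ j ∈ range ⌊L ^ C⌋₊,
        (Yr * P ((j + 1) * q) N F β + ∑ u ∈ U, P ((j + 1) * q) N (G u) β)) = Z2 at e4 ⊢
    calc (k : ℝ) ^ 2 * ((Q : ℝ) ^ 2 / (((k * q : ℕ) : ℝ) * L ^ (A + 2 * C + 9)) * Z1)
        = k * ((Q : ℝ) ^ 2 / (q * L ^ (A + 2 * C + 9))) * Z1 := by
          rw [Nat.cast_mul]
          field_simp
      _ ≤ L ^ C * ((Q : ℝ) ^ 2 / (q * L ^ (A + 2 * C + 9))) * Z2 := by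
          gcongr

open Classical in
/-- the mean square in a residue class under the dichotomy -/
theorem coreU' (h3 : LiftStm) (h4 : ParsStm) (h5 : OrthStm) (F G : ℕ → ℂ) {A C C₃ : ℕ} {L : ℝ}
    {Y N Q q : ℕ} [NeZero q] {a : ZMod q} (hN : N = 3 * Y) (hQ : 1 ≤ Q) (hQY : Q ≤ Y)
    (hL : L = Real.log Q) (hL200 : 200 ≤ L) (hqLC : (q : ℝ) * L ^ C ≤ Q)
    (hF : ∑ n ∈ Icc 1 Q, ‖F n‖ ^ 2 ≤ Q * L ^ 8) (hG : ∀ n, n ≤ N → ‖G n‖ ≤ L ^ 2)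
    (hmin : ∀ (k : ℕ) (h : ℤ) (β : ℝ), L ^ C ≤ k → (q : ℝ) * k * L ^ C ≤ Q →
      IsCoprime h (k : ℤ) → |q * β - h / k| ≤ 1 / (k : ℝ) ^ 2 → P q Q F β ≤ (Q : ℝ) ^ 2 / (q * L ^ (A + 9)))
    (hB : ∀ (q' : ℕ) [NeZero q'], (q' : ℝ) ≤ q * L ^ C →
      ∃ B : Finset (DirichletCharacter ℂ q'), (B.card : ℝ) ≤ L ^ C₃ ∧
      ∀ η : ℝ, |η| ≤ L ^ C / Q → ∀ S : Finset (DirichletCharacter ℂ q'), Disjoint S B →
      ∑ u ∈ Ico Y (2 * Y), ∑ χ ∈ S, ‖∑ n ∈ Ioc u (u + Q), G n * χ (n : ZMod q') * ee (n * η)‖ ^ 2 ≤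
        Y * ((Q : ℝ) ^ 2 / L ^ (A + 2 * C + 9 + 4)))
    (hnonG : ∀ (q' : ℕ) [NeZero q'], (q' : ℝ) ≤ q * L ^ C → ∀ η : ℝ,
      ∑ u ∈ Ico Y (2 * Y), ∑ l ∈ univ.filter (fun l : ZMod q' => ¬ IsUnit l),
        ‖∑ n ∈ (Ioc u (u + Q)).filter (fun n : ℕ => (n : ZMod q') = l), G n * ee (n * η)‖ ^ 2 ≤
        Y * ((Q : ℝ) ^ 2 / (q' * L ^ (A + 2 * C + 9 + 2))))
    (hdich : ∀ j : ℕ, ((j + 1 : ℕ) : ℝ) ≤ L ^ C → ∀ χ : DirichletCharacter ℂ ((j + 1) * q),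
      (∀ η : ℝ, |η| ≤ L ^ C / Q →
        ∑ u ∈ Ico Y (2 * Y), ‖∑ n ∈ Ioc u (u + Q), G n * χ (n : ZMod ((j + 1) * q)) * ee (n * η)‖ ^ 2 ≤
          Y * ((Q : ℝ) / L ^ (C₃ + (A + 2 * C + 9) + 4)) ^ 2) ∨
      (∀ a' : ZMod ((j + 1) * q), ((a'.val : ℕ) : ZMod q) = a → ∀ η : ℝ, |η| ≤ L ^ C / Q →
        ‖∑ l : ZMod ((j + 1) * q), cl ((j + 1) * q) Q F η l * χ⁻¹ (a' - l)‖ ≤
          Q / L ^ (2 * C₃ + (A + 2 * C + 9) + 3))) :
    ∑ n ∈ (Icc (Y + 2 * Q) (2 * Y)).filter (fun n : ℕ => (n : ZMod q) = a),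
      ‖∑ b ∈ Icc 1 Q, F b * G (n - b)‖ ^ 2 ≤ Y * (Q : ℝ) ^ 2 / (q * L ^ A) := by
  have hL8 : 8 ≤ L := by linarith
  have hL0 : 0 < L := by linarith
  have hL1 : 1 ≤ L := by linarith
  have hQ0 : (0 : ℝ) < Q := by exact_mod_cast hQ
  have hq0 : (0 : ℝ) < q := by exact_mod_cast NeZero.pos q
  have hLC1 : 1 ≤ L ^ C := one_le_pow₀ hL1
  have hqQ : (q : ℝ) ≤ Q := by
    refine le_trans ?_ hqLC
    nlinarith
  have hQN : Q ≤ N := by omega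
  have hN1 : 1 ≤ N := by omega
  have huN : ∀ u ∈ Ico Y (2 * Y), u + Q ≤ N := by
    intro u hu
    rw [mem_Ico] at hu
    omega
  -- the estimate for one frequency
  have hPtr : ∀ (q' : ℕ) [NeZero q'] (β : ℝ), P q' N (tr Q F) β = P q' Q F β := by
    intro q' _ β
    unfold P
    simp only [cl_tr hQN]
  have hpt := pointU (a := a) h3 (tr Q F) (fun u => wG u Q G) (Ico Y (2 * Y)) (A := A) (C := C)
    (Yr := (Y : ℝ)) (N := N) hL8 hQ hqLC (by positivity)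
    (fun k h β hk1 hk2 hk3 hk4 => by
      rw [hPtr]
      exact hmin k h β hk1 hk2 hk3 hk4)
    (fun j hj a' ha' η hη => by
      have hq' : (((j + 1) * q : ℕ) : ℝ) ≤ q * L ^ C := by
        rw [Nat.cast_mul]
        calc ((j + 1 : ℕ) : ℝ) * q ≤ L ^ C * q := by gcongr
          _ = q * L ^ C := mul_comm _ _
      have hq'N : (((j + 1) * q : ℕ) : ℝ) ≤ Q := hq'.trans hqLC
      obtain ⟨B, hBc, hB'⟩ := hB ((j + 1) * q) hq'
      apply pwU h5 (Ico Y (2 * Y)) (tr Q F) (fun u => wG u Q G) (A := A + 2 * C + 9) (C₃ := C₃)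
        (B₂ := 2 * C₃ + (A + 2 * C + 9) + 3) (U₁ := C₃ + (A + 2 * C + 9) + 4) (by positivity) hL hL200 hQ hq'N B hBc
      · intro S hS
        refine le_trans (le_of_eq ?_) (hB' η hη S hS)
        refine sum_congr rfl fun u hu => ?_
        simp only [cs_wG (huN u hu)]
      · refine le_trans (le_of_eq ?_) (hnonG ((j + 1) * q) hq' η)
        refine sum_congr rfl fun u hu => ?_
        simp only [cl_wG (huN u hu)]
      · intro χ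
        rcases hdich j hj χ with h | h
        · left
          refine le_trans (le_of_eq ?_) (h η hη)
          refine sum_congr rfl fun u hu => ?_
          simp only [cs_wG (huN u hu)]
        · right
          simp only [cl_tr hQN]
          exact h a' ha' η hη
      · omega
      · omega)
  -- Parseval
  obtain ⟨D, hD⟩ : ∃ D : ℝ, D = ((2 * N + 1 : ℕ) : ℝ) := ⟨_, rfl⟩
  have hD0 : 0 < D := by rw [hD]; positivity
  have hsumP : ∀ (q' : ℕ) [NeZero q'] (F : ℕ → ℂ),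
      ∑ t ∈ range (2 * N + 1), P q' N F ((t : ℝ) / D) = D * ∑ n ∈ Icc 1 N, ‖F n‖ ^ 2 := by
    intro q' _ F
    rw [hD]
    exact (h4 q' N F F hN1).2
  obtain ⟨WL, hWL⟩ : ∃ WL, WL = ∑ n ∈ Icc 1 N, ‖tr Q F n‖ ^ 2 := ⟨_, rfl⟩
  obtain ⟨WF, hWF⟩ : ∃ WF, WF = ∑ u ∈ Ico Y (2 * Y), ∑ n ∈ Icc 1 N, ‖wG u Q G n‖ ^ 2 := ⟨_, rfl⟩
  have hWL0 : 0 ≤ WL := by rw [hWL]; exact sum_nonneg fun _ _ => by positivity
  have hWF0 : 0 ≤ WF := by rw [hWF]; exact sum_nonneg fun _ _ => sum_nonneg fun _ _ => by positivity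
  have w1 : WL ≤ Q * L ^ 8 := by
    refine le_trans (le_of_eq ?_) hF
    rw [hWL, ← sum_subset (Icc_subset_Icc le_rfl hQN : Icc 1 Q ⊆ Icc 1 N)]
    · refine sum_congr rfl fun n hn => ?_
      rw [mem_Icc] at hn
      unfold tr
      rw [if_pos hn.2]
    · intro n hn hn'
      rw [mem_Icc] at hn hn'
      unfold tr
      rw [if_neg (fun h => hn' ⟨hn.1, h⟩), norm_zero]
      norm_num
  have w2 : WF ≤ Y * (Q * L ^ 8) := by
    rw [hWF]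
    have e1 : ∀ u ∈ Ico Y (2 * Y), ∑ n ∈ Icc 1 N, ‖wG u Q G n‖ ^ 2 ≤ Q * L ^ 8 := by
      intro u hu
      have e2 : ∑ n ∈ Icc 1 N, ‖wG u Q G n‖ ^ 2 = ∑ n ∈ Ioc u (u + Q), ‖wG u Q G n‖ ^ 2 := by
        symm
        apply sum_subset
        · intro n hn
          have := huN u hu
          rw [mem_Ioc] at hn
          rw [mem_Icc]
          omega
        · intro n _ hn
          rw [mem_Ioc] at hn
          unfold wG
          rw [if_neg hn, norm_zero]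
          norm_num
      rw [e2]
      calc ∑ n ∈ Ioc u (u + Q), ‖wG u Q G n‖ ^ 2 ≤ ∑ n ∈ Ioc u (u + Q), (L ^ 2) ^ 2 := by
            refine sum_le_sum fun n hn => ?_
            have h1 := huN u hu
            rw [mem_Ioc] at hn
            unfold wG
            rw [if_pos hn]
            exact pow_le_pow_left₀ (norm_nonneg _) (hG n (by omega)) 2
        _ = Q * L ^ 4 := by
            rw [sum_const, Nat.card_Ioc, nsmul_eq_mul]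
            have : u + Q - u = Q := by omega
            rw [this]
            ring
        _ ≤ Q * L ^ 8 := by
            have := pow_le_pow_right₀ hL1 (show 4 ≤ 8 by norm_num)
            gcongr
    refine (sum_le_sum e1).trans ?_
    rw [sum_const, Nat.card_Ico, nsmul_eq_mul]
    have : 2 * Y - Y = Y := by omega
    rw [this]
  obtain ⟨c1, hc1⟩ : ∃ c1, c1 = (Q : ℝ) ^ 2 / (q * L ^ (A + 9)) := ⟨_, rfl⟩
  obtain ⟨c2, hc2⟩ : ∃ c2, c2 = L ^ C * ((Q : ℝ) ^ 2 / (q * L ^ (A + 2 * C + 9))) := ⟨_, rfl⟩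
  have hc10 : 0 ≤ c1 := by rw [hc1]; positivity
  have hc20 : 0 ≤ c2 := by rw [hc2]; positivity
  rw [← hc1, ← hc2] at hpt
  have hK : ((⌊L ^ C⌋₊ : ℕ) : ℝ) ≤ L ^ C := Nat.floor_le (by positivity)
  have hWu : ∀ (q' : ℕ) [NeZero q'], ∑ t ∈ range (2 * N + 1), ∑ u ∈ Ico Y (2 * Y), P q' N (wG u Q G) ((t : ℝ) / D) =
      D * WF := by
    intro q' _
    rw [sum_comm, hWF, mul_sum]
    exact sum_congr rfl fun u _ => hsumP q' _
  have step : ∑ t ∈ range (2 * N + 1), ∑ u ∈ Ico Y (2 * Y), ‖∑ l : ZMod q, cl q N (tr Q F) ((t : ℝ) / D) l *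
      cl q N (wG u Q G) ((t : ℝ) / D) (a - l)‖ ^ 2 ≤ D * (c1 * (Y * (Q * L ^ 8)) +
        c2 * (L ^ C * (2 * (Y * (Q * L ^ 8))))) := by
    calc ∑ t ∈ range (2 * N + 1), ∑ u ∈ Ico Y (2 * Y), ‖∑ l : ZMod q, cl q N (tr Q F) ((t : ℝ) / D) l *
        cl q N (wG u Q G) ((t : ℝ) / D) (a - l)‖ ^ 2
        ≤ ∑ t ∈ range (2 * N + 1), (c1 * ∑ u ∈ Ico Y (2 * Y), P q N (wG u Q G) ((t : ℝ) / D) +
          c2 * ∑ j ∈ range ⌊L ^ C⌋₊, (Y * P ((j + 1) * q) N (tr Q F) ((t : ℝ) / D) +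
            ∑ u ∈ Ico Y (2 * Y), P ((j + 1) * q) N (wG u Q G) ((t : ℝ) / D))) :=
          sum_le_sum fun t _ => hpt _
      _ = c1 * (D * WF) + c2 * ∑ j ∈ range ⌊L ^ C⌋₊, (Y * (D * WL) + D * WF) := by
          rw [sum_add_distrib, ← mul_sum, ← mul_sum, hWu q, sum_comm]
          congr 2
          refine sum_congr rfl fun j _ => ?_
          rw [sum_add_distrib, ← mul_sum, hsumP ((j + 1) * q) (tr Q F), hWu ((j + 1) * q), hWL]
      _ = D * (c1 * WF + c2 * ((⌊L ^ C⌋₊ : ℕ) * (Y * WL + WF))) := by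
          rw [sum_const, card_range, nsmul_eq_mul]
          ring
      _ ≤ D * (c1 * (Y * (Q * L ^ 8)) + c2 * (L ^ C * (2 * (Y * (Q * L ^ 8))))) := by
          have h0 : 0 ≤ (Y : ℝ) * WL + WF := by positivity
          have h1 : (Y : ℝ) * WL + WF ≤ 2 * (Y * (Q * L ^ 8)) := by
            have : (Y : ℝ) * WL ≤ Y * (Q * L ^ 8) := by gcongr
            linarith
          gcongr
  have main : ∀ u ∈ Ico Y (2 * Y), D * ∑ n ∈ (Icc 1 (2 * N)).filter (fun n : ℕ => (n : ZMod q) = a),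
      ‖∑ b ∈ Icc 1 N, ∑ c ∈ Icc 1 N, if b + c = n then tr Q F b * wG u Q G c else 0‖ ^ 2 =
      ∑ t ∈ range (2 * N + 1), ‖∑ l : ZMod q, cl q N (tr Q F) ((t : ℝ) / D) l *
        cl q N (wG u Q G) ((t : ℝ) / D) (a - l)‖ ^ 2 := by
    intro u _
    rw [hD]
    exact (h4 q N (tr Q F) (wG u Q G) hN1).1 a
  have h9 : D * ∑ u ∈ Ico Y (2 * Y), ∑ n ∈ (Icc 1 (2 * N)).filter (fun n : ℕ => (n : ZMod q) = a),
      ‖∑ b ∈ Icc 1 N, ∑ c ∈ Icc 1 N, if b + c = n then tr Q F b * wG u Q G c else 0‖ ^ 2 ≤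
        D * (c1 * (Y * (Q * L ^ 8)) + c2 * (L ^ C * (2 * (Y * (Q * L ^ 8))))) := by
    rw [mul_sum, sum_congr rfl main, sum_comm]
    exact step
  have h10 := le_of_mul_le_mul_left h9 hD0
  have h11 : (Q : ℝ) ^ 2 * ∑ n ∈ (Icc (Y + 2 * Q) (2 * Y)).filter (fun n : ℕ => (n : ZMod q) = a),
      ‖∑ b ∈ Icc 1 Q, F b * G (n - b)‖ ^ 2 ≤ 2 * Q * ∑ u ∈ Ico Y (2 * Y),
      ∑ n ∈ (Icc 1 (2 * N)).filter (fun n : ℕ => (n : ZMod q) = a),
      ‖∑ b ∈ Icc 1 N, ∑ c ∈ Icc 1 N, if b + c = n then tr Q F b * wG u Q G c else 0‖ ^ 2 := by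
    calc (Q : ℝ) ^ 2 * ∑ n ∈ (Icc (Y + 2 * Q) (2 * Y)).filter (fun n : ℕ => (n : ZMod q) = a),
          ‖∑ b ∈ Icc 1 Q, F b * G (n - b)‖ ^ 2
        ≤ ∑ n ∈ (Icc (Y + 2 * Q) (2 * Y)).filter (fun n : ℕ => (n : ZMod q) = a),
          2 * Q * ∑ u ∈ Ico Y (2 * Y), ‖∑ b ∈ Icc 1 Q, F b * wG u Q G (n - b)‖ ^ 2 := by
          rw [mul_sum]
          refine sum_le_sum fun n hn => ?_
          rw [mem_filter, mem_Icc] at hn
          exact conv_avg F G hQ hn.1.1 hn.1.2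
      _ = 2 * Q * ∑ u ∈ Ico Y (2 * Y), ∑ n ∈ (Icc (Y + 2 * Q) (2 * Y)).filter (fun n : ℕ => (n : ZMod q) = a),
          ‖∑ b ∈ Icc 1 Q, F b * wG u Q G (n - b)‖ ^ 2 := by
          rw [← mul_sum, sum_comm]
      _ ≤ _ := by
          apply mul_le_mul_of_nonneg_left _ (by positivity)
          refine sum_le_sum fun u hu => ?_
          calc ∑ n ∈ (Icc (Y + 2 * Q) (2 * Y)).filter (fun n : ℕ => (n : ZMod q) = a),
                ‖∑ b ∈ Icc 1 Q, F b * wG u Q G (n - b)‖ ^ 2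
              = ∑ n ∈ (Icc (Y + 2 * Q) (2 * Y)).filter (fun n : ℕ => (n : ZMod q) = a),
                ‖∑ b ∈ Icc 1 N, ∑ c ∈ Icc 1 N, if b + c = n then tr Q F b * wG u Q G c else 0‖ ^ 2 := by
                refine sum_congr rfl fun n hn => ?_
                rw [mem_filter, mem_Icc] at hn
                rw [conv_wG F (wG u Q G) (by omega) hQN (by omega)]
            _ ≤ _ := by
                apply sum_le_sum_of_subset_of_nonneg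
                · apply filter_subset_filter
                  intro n hn
                  rw [mem_Icc] at hn ⊢
                  omega
                · intro n _ _
                  positivity
  have h12 := h11.trans (mul_le_mul_of_nonneg_left h10 (by positivity))
  have e1 : c1 * (Y * (Q * L ^ 8)) = Y * (Q : ℝ) ^ 3 / (q * L ^ A) * (1 / L) := by
    rw [hc1, show A + 9 = A + 8 + 1 by ring, pow_succ, pow_add]
    field_simp
    try ring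
  have e2 : c2 * (L ^ C * (2 * (Y * (Q * L ^ 8)))) = Y * (Q : ℝ) ^ 3 / (q * L ^ A) * (2 / L) := by
    rw [hc2, show A + 2 * C + 9 = A + C + C + 8 + 1 by ring, pow_succ, pow_add, pow_add, pow_add]
    field_simp
    try ring
  rw [e1, e2, ← mul_add] at h12
  have e3 : 2 * (1 / L + 2 / L) ≤ 1 := by
    rw [← add_div, ← mul_div_assoc, div_le_one hL0]
    linarith
  have h13 : 2 * Q * (Y * (Q : ℝ) ^ 3 / (q * L ^ A) * (1 / L + 2 / L)) =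
      (Q : ℝ) ^ 2 * (Y * (Q : ℝ) ^ 2 / (q * L ^ A) * (2 * (1 / L + 2 / L))) := by
    ring
  rw [h13] at h12
  have h14 := le_of_mul_le_mul_left h12 (by positivity)
  refine h14.trans ?_
  calc Y * (Q : ℝ) ^ 2 / (q * L ^ A) * (2 * (1 / L + 2 / L)) ≤ Y * (Q : ℝ) ^ 2 / (q * L ^ A) * 1 := by gcongr
    _ = _ := mul_one _

/-- (25) -/
theorem coreu : S_COREU := by
  classical
  intro F G A C C₃ L Y N Q q _ a hN hQ hQY hL hL200 hqLC hF hG hmin hB hnonG hdich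
  refine coreU' Pool.Agent.Y708.GJ.lift Pool.Agent.Y872.GJ.pars Pool.Agent.Y297.GJ.orth F G hN hQ hQY hL
    hL200 hqLC hF hG hmin hB ?_ hdich
  intro q' _ hq' η
  refine le_trans (le_of_eq ?_) (hnonG q' hq' η)
  refine sum_congr rfl fun u _ => ?_
  rw [sum_filter]
  refine sum_congr rfl fun l _ => ?_
  by_cases h : IsUnit l
  · rw [if_neg (not_not.2 h), if_pos h]
  · rw [if_pos h, if_neg h]

end Pool.Agent.H376.PP
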