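import Pool.Agent.H567.PP.Stm2
import Pool.Agent.H567.PP.Stm3
import Pool.Graph.R_pool_sql_team_seeded_47a924f7.T6.H3.FF.Vec

/-!
# The minorant twisted by characters whose conductor has a small radical
-/

set_option autoImplicit false

namespace Pool.Agent.H376.PP

open Finset
open Pool.Agent.H567.PP
open Pool.Agent.helper24_UT (tw)
open Pool.Agent.T6.H3.FF (GM gm om ZZ ZZ_fifth ZZ_le card_big ZZ_real)

/-- the largest prime factor -/
def lp (n : ℕ) : ℕ := n.primeFactors.sup id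

lemma le_lp {n q : ℕ} (hq : q ∈ n.primeFactors) : q ≤ lp n := Finset.le_sup (f := id) hq

lemma lp_mem {n : ℕ} (hn : 2 ≤ n) : lp n ∈ n.primeFactors := by
  have hne : n.primeFactors.Nonempty := Nat.nonempty_primeFactors.2 (by omega)
  obtain ⟨q, hq, hq'⟩ := Finset.exists_mem_eq_sup n.primeFactors hne id
  unfold lp
  rw [hq']
  exact hq

lemma pf_mul {m p : ℕ} (hm : 1 ≤ m) (hp : p.Prime) : (m * p).primeFactors = m.primeFactors ∪ {p} := by
  rw [Nat.primeFactors_mul (by omega) hp.ne_zero, Nat.Prime.primeFactors hp]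

/-- the number of small prime factors -/
lemma om_mul {N m p : ℕ} (hm : 1 ≤ m) (hp : p.Prime) (h : ¬ p ∣ m) :
    om N (m * p) = om N m + if p ≤ Nat.sqrt N then 1 else 0 := by
  unfold om
  rw [pf_mul hm hp, Finset.filter_union, Finset.card_union_of_disjoint, Finset.filter_singleton]
  · split_ifs <;> simp
  · rw [Finset.disjoint_left]
    intro q hq hq'
    rw [Finset.mem_filter] at hq hq'
    rw [Finset.mem_singleton.1 hq'.1] at hq
    exact h (Nat.dvd_of_mem_primeFactors hq.1)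

/-- the numbers whose largest prime factor occurs only once -/
lemma good_sum (Z y : ℕ) (f : ℕ → ℂ) :
    ∑ n ∈ (Icc 1 y).filter (fun n => 2 ≤ n ∧ (∀ q ∈ n.primeFactors, Z < q) ∧ ¬ lp n ∣ n / lp n), f n =
      ∑ m ∈ (Icc 1 y).filter (fun m => ∀ q ∈ m.primeFactors, Z < q),
        ∑ p ∈ (Ioc (max (lp m) Z) (y / m)).filter Nat.Prime, f (m * p) := by
  classical
  rw [Finset.sum_sigma']
  symm
  refine Finset.sum_nbij' (fun x => x.1 * x.2) (fun n => ⟨n / lp n, lp n⟩) ?_ ?_ ?_ ?_ ?_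
  · rintro ⟨m, p⟩ hx
    simp only [Finset.mem_sigma, Finset.mem_filter, Finset.mem_Icc, Finset.mem_Ioc] at hx
    obtain ⟨⟨⟨hm1, hmy⟩, hmg⟩, ⟨hp1, hp2⟩, hp⟩ := hx
    have hpm : m * p ≤ y := by
      have := Nat.mul_le_mul_left m hp2
      exact this.trans (Nat.mul_div_le y m)
    have hlp : lp (m * p) = p := by
      unfold lp
      rw [pf_mul hm1 hp, Finset.sup_union, Finset.sup_singleton]
      have : m.primeFactors.sup id ≤ p := ((le_max_left _ _).trans_lt hp1).le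
      exact sup_eq_right.2 this
    have hnd : ¬ p ∣ m := fun hd => by
      have := le_lp (Nat.mem_primeFactors.2 ⟨hp, hd, by omega⟩)
      have h2 := (le_max_left (lp m) Z).trans_lt hp1
      omega
    rw [Finset.mem_filter, Finset.mem_Icc]
    refine ⟨⟨Nat.mul_pos hm1 hp.pos, hpm⟩, ?_, ?_, ?_⟩
    · exact hp.two_le.trans (Nat.le_mul_of_pos_left p hm1)
    · intro q hq
      rw [pf_mul hm1 hp, Finset.mem_union, Finset.mem_singleton] at hq
      rcases hq with hq | rfl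
      · exact hmg q hq
      · exact (le_max_right _ _).trans_lt hp1
    · rw [hlp, Nat.mul_div_cancel _ hp.pos]
      exact hnd
  · intro n hn
    rw [Finset.mem_filter, Finset.mem_Icc] at hn
    obtain ⟨⟨hn1, hny⟩, hn2, hng, hnd⟩ := hn
    have hmem := lp_mem hn2
    have hp := Nat.prime_of_mem_primeFactors hmem
    have hdvd := Nat.dvd_of_mem_primeFactors hmem
    have hm1 : 1 ≤ n / lp n := Nat.div_pos (Nat.le_of_dvd (by omega) hdvd) hp.pos
    have hsub : (n / lp n).primeFactors ⊆ n.primeFactors :=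
      Nat.primeFactors_mono (Nat.div_dvd_of_dvd hdvd) (by omega)
    simp only [Finset.mem_sigma, Finset.mem_filter, Finset.mem_Icc, Finset.mem_Ioc]
    refine ⟨⟨⟨hm1, (Nat.div_le_self _ _).trans hny⟩, fun q hq => hng q (hsub hq)⟩, ⟨?_, ?_⟩, hp⟩
    · refine max_lt ?_ (hng _ hmem)
      have h1 : (n / lp n).primeFactors.sup id < lp n := by
        rw [Finset.sup_lt_iff (by exact hp.pos)]
        intro q hq
        refine lt_of_le_of_ne (le_lp (hsub hq)) ?_
        intro h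
        have h2 := Nat.dvd_of_mem_primeFactors hq
        have h3 : q = lp n := h
        rw [h3] at h2
        exact hnd h2
      exact h1
    · rw [Nat.le_div_iff_mul_le (by omega), Nat.mul_div_cancel' hdvd]
      exact hny
  · rintro ⟨m, p⟩ hx
    simp only [Finset.mem_sigma, Finset.mem_filter, Finset.mem_Icc, Finset.mem_Ioc] at hx
    obtain ⟨⟨⟨hm1, hmy⟩, hmg⟩, ⟨hp1, hp2⟩, hp⟩ := hx
    have hlp : lp (m * p) = p := by
      unfold lp
      rw [pf_mul hm1 hp, Finset.sup_union, Finset.sup_singleton]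
      have : m.primeFactors.sup id ≤ p := ((le_max_left _ _).trans_lt hp1).le
      exact sup_eq_right.2 this
    simp only [hlp, Nat.mul_div_cancel _ hp.pos]
  · intro n hn
    rw [Finset.mem_filter, Finset.mem_Icc] at hn
    have hdvd := Nat.dvd_of_mem_primeFactors (lp_mem hn.2.1)
    exact Nat.div_mul_cancel hdvd
  · rintro ⟨m, p⟩ _
    rfl

/-- the value of the minorant -/
lemma GM_mul {N m p : ℕ} (hm : 1 ≤ m) (hg : ∀ q ∈ m.primeFactors, ZZ N < q) (hp : p.Prime)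
    (hZ : ZZ N < p) (hl : lp m < p) : GM N (m * p) =
      (Real.log N : ℂ) * ((1 - (om N m : ℂ)) - if p ≤ Nat.sqrt N then 1 else 0) := by
  have hnd : ¬ p ∣ m := fun hd => by
    have := le_lp (Nat.mem_primeFactors.2 ⟨hp, hd, by omega⟩)
    omega
  have h1 : ∀ q ∈ (m * p).primeFactors, ZZ N < q := by
    intro q hq
    rw [pf_mul hm hp, Finset.mem_union, Finset.mem_singleton] at hq
    rcases hq with hq | rfl
    · exact hg q hq
    · exact hZ
  unfold GM gm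
  rw [if_pos h1, om_mul hm hp hnd]
  obtain ⟨L, hL⟩ : ∃ L, L = Real.log (N : ℝ) := ⟨_, rfl⟩
  rw [← hL]
  split_ifs
  · push_cast; ring
  · push_cast; ring

lemma om_le {N n : ℕ} (hN : 1 ≤ N) (hn : 1 ≤ n) (hnN : n ≤ N)
    (hg : ∀ q ∈ n.primeFactors, ZZ N < q) : om N n ≤ 4 := by
  refine le_trans (Finset.card_le_card ?_)
    (card_big (Z := ZZ N) (P := Nat.sqrt N) (N := N) hn hnN (ZZ_fifth hN))
  intro p hp
  rw [Finset.mem_filter] at hp ⊢
  refine ⟨Nat.mem_divisors.2 ⟨Nat.dvd_of_mem_primeFactors hp.1, by omega⟩,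
    Nat.prime_of_mem_primeFactors hp.1, hg p hp.1, hp.2⟩

lemma om_abs {N n : ℕ} (hN : 1 ≤ N) (hn : 1 ≤ n) (hnN : n ≤ N)
    (hg : ∀ q ∈ n.primeFactors, ZZ N < q) : |1 - (om N n : ℝ)| ≤ 4 := by
  have h1 : (om N n : ℝ) ≤ 4 := by exact_mod_cast om_le hN hn hnN hg
  have h2 : (0 : ℝ) ≤ om N n := Nat.cast_nonneg _
  rw [abs_le]
  constructor <;> linarith

/-- the trivial bound for the minorant -/
lemma norm_GM {N n : ℕ} (hN : 1 ≤ N) (hn : 1 ≤ n) (hnN : n ≤ N) : ‖GM N n‖ ≤ 4 * Real.log N := by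
  have hL : 0 ≤ Real.log N := Real.log_nonneg (by exact_mod_cast hN)
  unfold GM gm
  rw [Complex.norm_real, Real.norm_eq_abs]
  split_ifs with hg
  · rw [abs_mul, abs_of_nonneg hL, mul_comm]
    exact mul_le_mul_of_nonneg_right (om_abs hN hn hnN hg) hL
  · rw [abs_zero]; positivity

/-- the sum over the numbers whose largest prime factor occurs only once -/
lemma good_bound {N d : ℕ} (ψ : DirichletCharacter ℂ d) (hN : 1 ≤ N) (T : ℝ) (hT : 0 ≤ T)
    (hS : ∀ a b : ℕ, a ≤ b → ZZ N + 1 ≤ b → b ≤ N →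
      ‖∑ p ∈ (Ioc a b).filter Nat.Prime, ψ (p : ZMod d)‖ ≤ b * T) {y : ℕ} (hy : y ≤ N) :
    ‖∑ n ∈ (Icc 1 y).filter (fun n => 2 ≤ n ∧ (∀ q ∈ n.primeFactors, ZZ N < q) ∧
      ¬ lp n ∣ n / lp n), GM N n * ψ (n : ZMod d)‖ ≤
      5 * Real.log N * T * N * (1 + Real.log N) := by
  classical
  have hL : 0 ≤ Real.log N := Real.log_nonneg (by exact_mod_cast hN)
  obtain ⟨S, hSd⟩ : ∃ S : ℕ → ℕ → ℂ, S = fun a b => ∑ p ∈ (Ioc a b).filter Nat.Prime, ψ (p : ZMod d) :=
    ⟨_, rfl⟩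
  have hSb : ∀ a b m : ℕ, ZZ N ≤ a → 1 ≤ m → b ≤ y / m → ‖S a b‖ ≤ N * (m : ℝ)⁻¹ * T := by
    intro a b m ha hm hb
    have hb1 : b * m ≤ N := ((Nat.le_div_iff_mul_le (by omega)).1 hb).trans hy
    have hm0 : (0 : ℝ) < m := by exact_mod_cast hm
    have hbN : b ≤ N := (Nat.le_mul_of_pos_right b (by omega)).trans hb1
    have hb2 : (b : ℝ) ≤ N * (m : ℝ)⁻¹ := by
      rw [← div_eq_mul_inv, le_div_iff₀ hm0]
      exact_mod_cast hb1
    rcases Nat.lt_or_ge a b with hab | hab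
    · have h1 := hS a b hab.le (by omega) hbN
      rw [hSd]
      exact h1.trans (mul_le_mul_of_nonneg_right hb2 hT)
    · rw [hSd]
      simp only
      rw [Finset.Ioc_eq_empty (by omega), Finset.filter_empty, Finset.sum_empty, norm_zero]
      positivity
  rw [good_sum]
  have h1 : ∀ m ∈ (Icc 1 y).filter (fun m => ∀ q ∈ m.primeFactors, ZZ N < q),
      ‖∑ p ∈ (Ioc (max (lp m) (ZZ N)) (y / m)).filter Nat.Prime,
        GM N (m * p) * ψ ((m * p : ℕ) : ZMod d)‖ ≤ 5 * Real.log N * T * N * (m : ℝ)⁻¹ := by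
    intro m hm
    rw [Finset.mem_filter, Finset.mem_Icc] at hm
    obtain ⟨⟨hm1, hmy⟩, hmg⟩ := hm
    obtain ⟨a, ha⟩ : ∃ a, a = max (lp m) (ZZ N) := ⟨_, rfl⟩
    have haZ : ZZ N ≤ a := by rw [ha]; exact le_max_right _ _
    rw [← ha]
    have e1 : ∑ p ∈ (Ioc a (y / m)).filter Nat.Prime, GM N (m * p) * ψ ((m * p : ℕ) : ZMod d) =
        ψ (m : ZMod d) * (Real.log N : ℂ) * ((1 - (om N m : ℂ)) * S a (y / m) -
          S a (min (y / m) (Nat.sqrt N))) := by
      have e2 : ∀ p ∈ (Ioc a (y / m)).filter Nat.Prime, GM N (m * p) * ψ ((m * p : ℕ) : ZMod d) =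
          ψ (m : ZMod d) * (Real.log N : ℂ) * ((1 - (om N m : ℂ)) * ψ (p : ZMod d) -
            if p ≤ Nat.sqrt N then ψ (p : ZMod d) else 0) := by
        intro p hp
        rw [Finset.mem_filter, Finset.mem_Ioc] at hp
        have hap : a < p := hp.1.1
        have h2 : lp m < p := by
          rw [ha] at hap
          exact (le_max_left _ _).trans_lt hap
        rw [GM_mul hm1 hmg hp.2 (haZ.trans_lt hap) h2, Nat.cast_mul, map_mul]
        split_ifs <;> ring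
      rw [Finset.sum_congr rfl e2, ← Finset.mul_sum, Finset.sum_sub_distrib, ← Finset.mul_sum]
      congr 2
      · rw [hSd]
      · rw [← Finset.sum_filter, hSd]
        simp only
        congr 1
        ext p
        simp only [Finset.mem_filter, Finset.mem_Ioc, le_min_iff]
        tauto
    rw [e1]
    have b1 := hSb a (y / m) m haZ hm1 le_rfl
    have b2 := hSb a (min (y / m) (Nat.sqrt N)) m haZ hm1 (min_le_left _ _)
    have b3 : ‖ψ (m : ZMod d)‖ ≤ 1 := DirichletCharacter.norm_le_one ψ _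
    have b4 : ‖(1 - (om N m : ℂ))‖ ≤ 4 := by
      have h3 := om_abs hN hm1 (hmy.trans hy) hmg
      have h4 : (1 - (om N m : ℂ)) = ((1 - (om N m : ℝ) : ℝ) : ℂ) := by push_cast; ring
      rw [h4, Complex.norm_real]
      exact h3
    have hX : 0 ≤ N * (m : ℝ)⁻¹ * T := by positivity
    rw [norm_mul, norm_mul, Complex.norm_real, Real.norm_of_nonneg hL]
    have b5 : ‖(1 - (om N m : ℂ)) * S a (y / m) - S a (min (y / m) (Nat.sqrt N))‖ ≤
        5 * (N * (m : ℝ)⁻¹ * T) := by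
      refine (norm_sub_le _ _).trans ?_
      rw [norm_mul]
      have := mul_le_mul b4 b1 (norm_nonneg _) (by norm_num)
      linarith
    calc ‖ψ (m : ZMod d)‖ * Real.log N * ‖(1 - (om N m : ℂ)) * S a (y / m) -
          S a (min (y / m) (Nat.sqrt N))‖ ≤ 1 * Real.log N * (5 * (N * (m : ℝ)⁻¹ * T)) := by
            gcongr
      _ = 5 * Real.log N * T * N * (m : ℝ)⁻¹ := by ring
  refine (norm_sum_le_of_le _ h1).trans ?_
  rw [← Finset.mul_sum]
  refine mul_le_mul_of_nonneg_left ?_ (by positivity)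
  have h2 : ∑ m ∈ (Icc 1 y).filter (fun m => ∀ q ∈ m.primeFactors, ZZ N < q), (m : ℝ)⁻¹ ≤
      ∑ m ∈ Icc 1 N, (m : ℝ)⁻¹ := by
    refine Finset.sum_le_sum_of_subset_of_nonneg ?_ fun _ _ _ => by positivity
    intro m hm
    rw [Finset.mem_filter, Finset.mem_Icc] at hm
    rw [Finset.mem_Icc]
    exact ⟨hm.1.1, hm.1.2.trans hy⟩
  refine h2.trans ?_
  have h3 := harmonic_le_one_add_log N
  rw [harmonic_eq_sum_Icc] at h3
  push_cast at h3
  exact h3

open scoped Classical in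
/-- the number of the multiples of large squares -/
lemma card_sq {N Z : ℕ} (hZ : 1 ≤ Z) :
    ((((Icc 1 N).filter (fun n => ∃ p, Z < p ∧ p ^ 2 ∣ n)).card : ℕ) : ℝ) ≤ N / Z := by
  have h1 : (Icc 1 N).filter (fun n => ∃ p, Z < p ∧ p ^ 2 ∣ n) ⊆
      (Ioc Z N).biUnion (fun p => (Ioc 0 N).filter (fun n => p ^ 2 ∣ n)) := by
    intro n hn
    rw [Finset.mem_filter, Finset.mem_Icc] at hn
    obtain ⟨⟨hn1, hnN⟩, p, hp, hpn⟩ := hn
    rw [Finset.mem_biUnion]
    refine ⟨p, ?_, ?_⟩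
    · rw [Finset.mem_Ioc]
      refine ⟨hp, ?_⟩
      have h2 := Nat.le_of_dvd (by omega) hpn
      have h3 : p ≤ p ^ 2 := Nat.le_self_pow (by norm_num) p
      omega
    · rw [Finset.mem_filter, Finset.mem_Ioc]
      exact ⟨⟨by omega, hnN⟩, hpn⟩
  have h2 : (((Icc 1 N).filter (fun n => ∃ p, Z < p ∧ p ^ 2 ∣ n)).card : ℕ) ≤
      ∑ p ∈ Ioc Z N, N / p ^ 2 := by
    refine (Finset.card_le_card h1).trans (Finset.card_biUnion_le.trans ?_)
    refine Finset.sum_le_sum fun p _ => ?_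
    rw [Nat.Ioc_filter_dvd_card_eq_div]
  have h3 : ((∑ p ∈ Ioc Z N, N / p ^ 2 : ℕ) : ℝ) ≤ ∑ p ∈ Ioc Z N, (N : ℝ) * ((p : ℝ) ^ 2)⁻¹ := by
    push_cast
    refine Finset.sum_le_sum fun p _ => ?_
    rw [← div_eq_mul_inv]
    have := Nat.cast_div_le (α := ℝ) (m := N) (n := p ^ 2)
    push_cast at this
    exact this
  refine ((Nat.cast_le (α := ℝ)).2 h2).trans (h3.trans ?_)
  rw [← Finset.mul_sum, div_eq_mul_inv]
  refine mul_le_mul_of_nonneg_left ?_ (Nat.cast_nonneg _)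
  rcases Nat.lt_or_ge N Z with h | h
  · rw [Finset.Ioc_eq_empty (by omega), Finset.sum_empty]
    positivity
  · refine (sum_Ioc_inv_sq_le_sub (by omega) h).trans ?_
    have : (0 : ℝ) ≤ (N : ℝ)⁻¹ := by positivity
    linarith

/-- the sum over the other numbers -/
lemma bad_bound {N d : ℕ} (ψ : DirichletCharacter ℂ d) (hN : 1 ≤ N) (hZ : 1 ≤ ZZ N) {y : ℕ}
    (hy : y ≤ N) :
    ‖∑ n ∈ (Icc 1 y).filter (fun n => ¬ (2 ≤ n ∧ (∀ q ∈ n.primeFactors, ZZ N < q) ∧
      ¬ lp n ∣ n / lp n)), GM N n * ψ (n : ZMod d)‖ ≤ 4 * Real.log N * (1 + N / ZZ N) := by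
  classical
  have hL : 0 ≤ Real.log N := Real.log_nonneg (by exact_mod_cast hN)
  have h1 : ∑ n ∈ (Icc 1 y).filter (fun n => ¬ (2 ≤ n ∧ (∀ q ∈ n.primeFactors, ZZ N < q) ∧
      ¬ lp n ∣ n / lp n)), GM N n * ψ (n : ZMod d) =
      ∑ n ∈ (Icc 1 y).filter (fun n => n = 1 ∨ ∃ p, ZZ N < p ∧ p ^ 2 ∣ n),
        if (¬ (2 ≤ n ∧ (∀ q ∈ n.primeFactors, ZZ N < q) ∧ ¬ lp n ∣ n / lp n)) then
          GM N n * ψ (n : ZMod d) else 0 := by
    rw [Finset.sum_filter, Finset.sum_filter]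
    refine Finset.sum_congr rfl fun n hn => ?_
    rw [Finset.mem_Icc] at hn
    by_cases hb : n = 1 ∨ ∃ p, ZZ N < p ∧ p ^ 2 ∣ n
    · rw [if_pos hb]
    · rw [if_neg hb]
      by_cases hc : ¬ (2 ≤ n ∧ (∀ q ∈ n.primeFactors, ZZ N < q) ∧ ¬ lp n ∣ n / lp n)
      · rw [if_pos hc]
        rw [not_or] at hb
        have hn2 : 2 ≤ n := by
          have := hb.1
          omega
        have hg : ¬ ∀ q ∈ n.primeFactors, ZZ N < q := by
          intro hg
          apply hc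
          refine ⟨hn2, hg, fun hd => hb.2 ⟨lp n, hg _ (lp_mem hn2), ?_⟩⟩
          have hdvd := Nat.dvd_of_mem_primeFactors (lp_mem hn2)
          have h2 := Nat.mul_dvd_mul_left (lp n) hd
          rw [Nat.mul_div_cancel' hdvd] at h2
          rw [sq]
          exact h2
        unfold GM gm
        rw [if_neg hg, Complex.ofReal_zero, zero_mul]
      · rw [if_neg hc]
  rw [h1]
  have h2 : ∀ n ∈ (Icc 1 y).filter (fun n => n = 1 ∨ ∃ p, ZZ N < p ∧ p ^ 2 ∣ n),
      ‖(if (¬ (2 ≤ n ∧ (∀ q ∈ n.primeFactors, ZZ N < q) ∧ ¬ lp n ∣ n / lp n)) then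
          GM N n * ψ (n : ZMod d) else 0)‖ ≤ 4 * Real.log N := by
    intro n hn
    rw [Finset.mem_filter, Finset.mem_Icc] at hn
    by_cases hc : ¬ (2 ≤ n ∧ (∀ q ∈ n.primeFactors, ZZ N < q) ∧ ¬ lp n ∣ n / lp n)
    · rw [if_pos hc, norm_mul]
      have b1 := norm_GM hN hn.1.1 (hn.1.2.trans hy)
      have b3 : ‖ψ (n : ZMod d)‖ ≤ 1 := DirichletCharacter.norm_le_one ψ _
      have := mul_le_mul b1 b3 (norm_nonneg _) (by positivity)
      linarith
    · rw [if_neg hc, norm_zero]; positivity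
  refine (norm_sum_le_of_le _ h2).trans ?_
  rw [Finset.sum_const, nsmul_eq_mul, mul_comm]
  refine mul_le_mul_of_nonneg_left ?_ (by positivity)
  have h3 : ((Icc 1 y).filter (fun n => n = 1 ∨ ∃ p, ZZ N < p ∧ p ^ 2 ∣ n)).card ≤
      1 + ((Icc 1 N).filter (fun n => ∃ p, ZZ N < p ∧ p ^ 2 ∣ n)).card := by
    have h4 : (Icc 1 y).filter (fun n => n = 1 ∨ ∃ p, ZZ N < p ∧ p ^ 2 ∣ n) ⊆
        {1} ∪ (Icc 1 N).filter (fun n => ∃ p, ZZ N < p ∧ p ^ 2 ∣ n) := by
      intro n hn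
      rw [Finset.mem_filter, Finset.mem_Icc] at hn
      rw [Finset.mem_union, Finset.mem_singleton, Finset.mem_filter, Finset.mem_Icc]
      rcases hn.2 with h | h
      · exact Or.inl h
      · exact Or.inr ⟨⟨hn.1.1, hn.1.2.trans hy⟩, h⟩
    refine (Finset.card_le_card h4).trans ((Finset.card_union_le _ _).trans ?_)
    rw [Finset.card_singleton]
  have h5 := card_sq (N := N) hZ
  have h6 : ((((Icc 1 y).filter (fun n => n = 1 ∨ ∃ p, ZZ N < p ∧ p ^ 2 ∣ n)).card : ℕ) : ℝ) ≤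
      1 + (((Icc 1 N).filter (fun n => ∃ p, ZZ N < p ∧ p ^ 2 ∣ n)).card : ℕ) := by
    exact_mod_cast h3
  linarith

lemma tw_zero' (x : ℝ) : tw 0 x = 1 := by
  unfold tw Pool.Agent.H376R2.MR.er
  rw [neg_zero, zero_mul, Complex.ofReal_zero, zero_mul, Complex.exp_zero]

/-- (19) -/
theorem gmb : S_PINT → S_GMB := by
  classical
  rintro ⟨η, hη, hη1, h⟩ B U
  obtain ⟨L₀, hL₀, hP⟩ := h B (U + 4)
  obtain ⟨N₁, hN₁⟩ := Filter.eventually_atTop.1
    (Pool.Agent.Y614.GJ.Core.ev_log (U + 2) (s := 1 / 5) (by norm_num)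
      (max L₀ (max 24 ((5 : ℝ) ^ (1 / η)))))
  refine ⟨N₁ + 2, fun N hN d ψ hprim hrad hd hdN y hy => ?_⟩
  obtain ⟨hb, hpow⟩ := hN₁ N (by omega)
  have hN1 : 1 ≤ N := by omega
  have hN0 : (0 : ℝ) < N := by exact_mod_cast hN1
  obtain ⟨L, hL⟩ : ∃ L, L = Real.log (N : ℝ) := ⟨_, rfl⟩
  have hexp : Real.exp L = N := by rw [hL, Real.exp_log hN0]
  have good := good_bound (N := N) ψ hN1 (1 / L ^ (U + 4)) (by
    rw [hL]
    have := Real.log_nonneg (x := (N : ℝ)) (by exact_mod_cast hN1)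
    positivity) (y := y)
  rw [← hL] at hb hpow hrad hd good ⊢
  have hb1 : L₀ ≤ L := (le_max_left _ _).trans hb
  have hb2 : 24 ≤ L := ((le_max_left _ _).trans (le_max_right _ _)).trans hb
  have hb3 : (5 : ℝ) ^ (1 / η) ≤ L := ((le_max_right _ _).trans (le_max_right _ _)).trans hb
  have hL0 : 0 < L := by linarith
  have hroot : (N : ℝ) ^ (1 / 5 : ℝ) = Real.exp (L / 5) := by
    rw [← hexp, ← Real.exp_mul]
    congr 1
    ring
  have hZr : (N : ℝ) ^ (1 / 5 : ℝ) < (ZZ N : ℝ) + 1 := Nat.lt_floor_add_one _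
  -- the size of `Z`
  have hpow2 : 24 * L ^ (U + 1) ≤ (N : ℝ) ^ (1 / 5 : ℝ) := by
    refine le_trans ?_ hpow
    rw [pow_succ L (U + 1), mul_comm]
    exact mul_le_mul_of_nonneg_left hb2 (by positivity)
  have hLU1 : 1 ≤ L ^ (U + 1) := one_le_pow₀ (by linarith)
  have hZ12 : 12 * L ^ (U + 1) ≤ ZZ N := by linarith
  have hZ1 : 1 ≤ ZZ N := by
    have : (1 : ℝ) ≤ ZZ N := by linarith
    exact_mod_cast this
  have hZpos : (0 : ℝ) < ZZ N := by exact_mod_cast hZ1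
  have hZN : (ZZ N : ℝ) ≤ N := by exact_mod_cast ZZ_le hN1
  -- the lower bound for the length of the intervals
  have hlen : Real.exp (L ^ (1 - η)) ≤ (N : ℝ) ^ (1 / 5 : ℝ) := by
    rw [hroot]
    refine Real.exp_le_exp.2 ?_
    have h5 : 5 ≤ L ^ η := by
      have h6 : ((5 : ℝ) ^ (1 / η)) ^ η ≤ L ^ η := Real.rpow_le_rpow (by positivity) hb3 hη.le
      rw [← Real.rpow_mul (by norm_num), one_div_mul_cancel hη.ne', Real.rpow_one] at h6
      exact h6
    rw [Real.rpow_sub hL0, Real.rpow_one]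
    exact div_le_div_of_nonneg_left hL0.le (by norm_num) h5
  have hgood := good (fun a b hab hZb hbN => by
    have hbr : (N : ℝ) ^ (1 / 5 : ℝ) ≤ b := by
      have : ((ZZ N : ℝ) + 1) ≤ b := by exact_mod_cast hZb
      linarith
    have h1 := hP L hb1 d ψ 0 hprim hrad hd (by rw [hexp]; exact_mod_cast hdN)
      (by rw [abs_zero]; positivity) a b hab (hlen.trans hbr) (by rw [hexp]; exact_mod_cast hbN)
    have h2 : ∑ p ∈ (Ioc a b).filter Nat.Prime, ψ (p : ZMod d) * tw 0 p =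
        ∑ p ∈ (Ioc a b).filter Nat.Prime, ψ (p : ZMod d) := by
      refine Finset.sum_congr rfl fun p _ => ?_
      rw [tw_zero', mul_one]
    rw [h2] at h1
    rw [mul_one_div]
    exact h1) hy
  have hbad := bad_bound (N := N) ψ hN1 hZ1 hy
  rw [← hL] at hbad
  rw [← Finset.sum_filter_add_sum_filter_not (Icc 1 y) (fun n => 2 ≤ n ∧
    (∀ q ∈ n.primeFactors, ZZ N < q) ∧ ¬ lp n ∣ n / lp n)]
  refine (norm_add_le _ _).trans ((add_le_add hgood hbad).trans ?_)
  have hLU : 0 < L ^ U := by positivity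
  have c1 : 5 * L * (1 / L ^ (U + 4)) * N * (1 + L) ≤ N / L ^ U * (1 / 3) := by
    have e1 : 5 * L * (1 / L ^ (U + 4)) * N * (1 + L) = N / L ^ U * (5 * (1 + L) / L ^ 3) := by
      rw [pow_add]
      field_simp
    rw [e1]
    refine mul_le_mul_of_nonneg_left ?_ (by positivity)
    rw [div_le_div_iff₀ (by positivity) (by norm_num)]
    nlinarith [mul_le_mul_of_nonneg_left hb2 hL0.le, mul_nonneg hL0.le (mul_nonneg hL0.le hL0.le),
      mul_le_mul hb2 hb2 (by norm_num) hL0.le, mul_le_mul_of_nonneg_left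
        (mul_le_mul hb2 hb2 (by norm_num) hL0.le) hL0.le]
  have c2 : 4 * L ≤ N / L ^ U * (1 / 3) := by
    rw [div_mul_eq_mul_div, le_div_iff₀ hLU]
    rw [pow_succ] at hZ12
    nlinarith
  have c3 : 4 * L * (N / ZZ N) ≤ N / L ^ U * (1 / 3) := by
    have e1 : 4 * L * (N / ZZ N) = N / L ^ U * (4 * L ^ (U + 1) / ZZ N) := by
      rw [pow_succ]
      field_simp
    rw [e1]
    refine mul_le_mul_of_nonneg_left ?_ (by positivity)
    rw [div_le_div_iff₀ hZpos (by norm_num)]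
    linarith
  calc 5 * L * (1 / L ^ (U + 4)) * N * (1 + L) + 4 * L * (1 + N / ZZ N)
      = 5 * L * (1 / L ^ (U + 4)) * N * (1 + L) + 4 * L + 4 * L * (N / ZZ N) := by ring
    _ ≤ N / L ^ U * (1 / 3) + N / L ^ U * (1 / 3) + N / L ^ U * (1 / 3) := by linarith
    _ = N / L ^ U := by ring

end Pool.Agent.H376.PP
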